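import Pool.Agent.MHP.Stmts

/-!
# MHP, row ATT: the gadget with a piece glued at a hub
-/

set_option autoImplicit false

namespace Pool.Agent.MHP.H8

open Pool.Agent.HMT Pool.Agent.MHP

section

variable {J : Type} [Finite J] (T B : ℕ) (GG : Set (Equiv.Perm J)) {U U' : Type}

lemma rl_core {ρ : J → U} {H : SimpleGraph U} {c c' : Σ c : CX T GG, Option (Fin (lf T B GG c))}
    (ρ' : J → U') (H' : SimpleGraph U')
    (h : Rl T B GG ρ H (.inl c) (.inl c')) : Rl T B GG ρ' H' (.inl c) (.inl c') := by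
  cases h with
  | leaf c t => exact .leaf c t
  | spi g k k' h => exact .spi g k k' h

lemma gr_core {ρ : J → U} {H : SimpleGraph U} {c c' : Σ c : CX T GG, Option (Fin (lf T B GG c))}
    (ρ' : J → U') (H' : SimpleGraph U')
    (h : (Gr T B GG ρ H).Adj (.inl c) (.inl c')) : (Gr T B GG ρ' H').Adj (.inl c) (.inl c') := by
  rw [Gr, SimpleGraph.fromRel_adj] at h ⊢
  refine ⟨?_, ?_⟩
  · intro h0
    exact h.1 (congrArg Sum.inl (Sum.inl.inj h0))
  · rcases h.2 with h2 | h2
    · exact Or.inl (rl_core T B GG ρ' H' h2)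
    · exact Or.inr (rl_core T B GG ρ' H' h2)

lemma rl_not {ρ : J → U} {H : SimpleGraph U} {c : Σ c : CX T GG, Option (Fin (lf T B GG c))}
    {u : U} : ¬ Rl T B GG ρ H (.inr u) (.inl c) := by
  intro h
  cases h

lemma rl_mid {ρ : J → U} {H : SimpleGraph U} {c : Σ c : CX T GG, Option (Fin (lf T B GG c))}
    {u : U} (h : Rl T B GG ρ H (.inl c) (.inr u)) : ∃ i, u = ρ i := by
  cases h with
  | leg g i => exact ⟨_, rfl⟩
  | oh j => exact ⟨_, rfl⟩

lemma rl_push {ρ : J → U} {H : SimpleGraph U} {c : Σ c : CX T GG, Option (Fin (lf T B GG c))}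
    {u : U} (s : U → U') (H' : SimpleGraph U') (h : Rl T B GG ρ H (.inl c) (.inr u)) :
    Rl T B GG (fun i => s (ρ i)) H' (.inl c) (.inr (s u)) := by
  cases h with
  | leg g i => exact .leg g i
  | oh j => exact .oh j

lemma rl_pull {ρ : J → U} (H : SimpleGraph U) {c : Σ c : CX T GG, Option (Fin (lf T B GG c))}
    {u : U} (s : U → U') (hs : Function.Injective s) (H' : SimpleGraph U')
    (h : Rl T B GG (fun i => s (ρ i)) H' (.inl c) (.inr (s u))) :
    Rl T B GG ρ H (.inl c) (.inr u) := by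
  generalize hx : s u = x at h
  cases h with
  | leg g i =>
    have := hs hx
    subst this
    exact .leg g i
  | oh j =>
    have := hs hx
    subst this
    exact .oh j

lemma gr_mid {ρ : J → U} {H : SimpleGraph U} {c : Σ c : CX T GG, Option (Fin (lf T B GG c))}
    {u : U} : (Gr T B GG ρ H).Adj (.inl c) (.inr u) ↔ Rl T B GG ρ H (.inl c) (.inr u) := by
  rw [Gr, SimpleGraph.fromRel_adj]
  constructor
  · rintro ⟨-, h | h⟩
    · exact h
    · exact absurd h (rl_not T B GG)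
  · intro h
    exact ⟨Sum.inl_ne_inr, Or.inl h⟩

lemma gr_piece {ρ : J → U} {H : SimpleGraph U} {u u' : U} :
    (Gr T B GG ρ H).Adj (.inr u) (.inr u') ↔ H.Adj u u' := by
  rw [Gr, SimpleGraph.fromRel_adj]
  constructor
  · rintro ⟨-, h | h⟩
    · cases h with
      | pc _ _ h => exact h
    · cases h with
      | pc _ _ h => exact h.symm
  · intro h
    exact ⟨fun h0 => h.ne (Sum.inr.inj h0), Or.inl (.pc _ _ h)⟩

end

/-- Row ATT. -/
theorem att : AttStmt := by
  intro J _ T B GG U W w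
  refine ⟨Equiv.sumAssoc _ _ _, rfl, ?_⟩
  intro ρ H C j a b
  have core : ∀ c c', (Gr T B GG (fun i => (Sum.inl (ρ i) : U ⊕ {v : W // v ≠ w}))
      (glue H (ρ j) C w)).Adj (Sum.inl c) (Sum.inl c') ↔ (Gr T B GG ρ H).Adj (Sum.inl c)
        (Sum.inl c') := fun c c' =>
    ⟨fun h => gr_core T B GG _ _ h, fun h => gr_core T B GG _ _ h⟩
  have mid : ∀ c u, (Gr T B GG (fun i => (Sum.inl (ρ i) : U ⊕ {v : W // v ≠ w}))
      (glue H (ρ j) C w)).Adj (Sum.inl c) (Sum.inr (Sum.inl u)) ↔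
        (Gr T B GG ρ H).Adj (Sum.inl c) (Sum.inr u) := by
    intro c u
    rw [gr_mid, gr_mid]
    exact ⟨fun h => rl_pull T B GG H (Sum.inl : U → U ⊕ {v : W // v ≠ w}) Sum.inl_injective _ h,
      fun h => rl_push T B GG (Sum.inl : U → U ⊕ {v : W // v ≠ w}) _ h⟩
  have far : ∀ c v, ¬ (Gr T B GG (fun i => (Sum.inl (ρ i) : U ⊕ {v : W // v ≠ w}))
      (glue H (ρ j) C w)).Adj (Sum.inl c) (Sum.inr (Sum.inr v)) := by
    intro c v h
    rw [gr_mid] at h
    obtain ⟨i, hi⟩ := rl_mid T B GG h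
    exact Sum.inr_ne_inl hi
  rcases a with (c | u) | v <;> rcases b with (c' | u') | v'
  · exact core c c'
  · exact mid c u'
  · constructor
    · intro h
      exact absurd h (far c v')
    · rintro ⟨h, -⟩
      exact absurd h Sum.inl_ne_inr
  · exact (SimpleGraph.adj_comm _ _ _).trans ((mid c' u).trans (SimpleGraph.adj_comm _ _ _))
  · refine (gr_piece T B GG).trans ?_
    have h := gr_piece T B GG (ρ := ρ) (H := H) (u := u) (u' := u')
    exact ⟨fun h1 => h.2 h1, fun h1 => h.1 h1⟩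
  · refine (gr_piece T B GG).trans ?_
    constructor
    · rintro ⟨h, h'⟩
      exact ⟨congrArg Sum.inr h, h'⟩
    · rintro ⟨h, h'⟩
      exact ⟨Sum.inr.inj h, h'⟩
  · constructor
    · intro h
      exact absurd h.symm (far c' v)
    · rintro ⟨h, -⟩
      exact absurd h Sum.inl_ne_inr
  · refine (gr_piece T B GG).trans ?_
    constructor
    · rintro ⟨h, h'⟩
      exact ⟨congrArg Sum.inr h, h'⟩
    · rintro ⟨h, h'⟩
      exact ⟨Sum.inr.inj h, h'⟩
  · exact gr_piece T B GG

end Pool.Agent.MHP.H8
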